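import Pool.Agent.H85.TU.Targets

/-!
Places of the points of a block of the free construction.
-/

set_option autoImplicit false

open Set

namespace Pool.Agent.H65.TU

open Pool.Agent.H85.TU

section

variable {ι : Type} {ar : ι → ℕ} {D : ι → Type} {x : Str ar D ℕ} {T : Dat x}

/-- a block from its generating points -/
def mkB (a b : Q) (ha : Val T a) (hb : Val T b) (h : Gen a b) : Blk T := ⟨(a, b), ha, hb, h⟩

theorem gen_ne {a b : Q} (h : Gen a b) : a ≠ b := by
  rintro rfl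
  rcases h.1 with h1 | h1
  · exact lt_irrefl _ h1
  · exact lt_irrefl _ h1.2

theorem mem_fst (B : Blk T) (p : Pt T) (h : p.1 = Sum.inl B.1.1) : Mem B p := by
  intro q hq
  rw [h] at hq
  exact Or.inl (Sum.inl.inj hq).symm

theorem mem_snd (B : Blk T) (p : Pt T) (h : p.1 = Sum.inl B.1.2) : Mem B p := by
  intro q hq
  rw [h] at hq
  exact Or.inr (Or.inl (Sum.inl.inj hq).symm)

theorem mem_inr (B : Blk T) (p : Pt T) (k : ℕ) (h : p.1 = Sum.inr k) : Mem B p := by
  intro q hq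
  rw [h] at hq
  exact absurd hq (by simp)

open Classical in
theorem pos_inl (A : ℕ → ℕ → Prop) (B : Blk T) (p : Pt T) (q : Q) (h : p.1 = Sum.inl q)
    (hB : ¬ Tws A B) : pos A B p = bp B q := by
  obtain ⟨p, hp⟩ := p
  change p = Sum.inl q at h
  subst h
  show (if Tws A B then sg T (bp B q) else bp B q) = _
  rw [if_neg hB]

open Classical in
theorem pos_inl_tws (A : ℕ → ℕ → Prop) (B : Blk T) (p : Pt T) (q : Q) (h : p.1 = Sum.inl q)
    (hB : Tws A B) : pos A B p = sg T (bp B q) := by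
  obtain ⟨p, hp⟩ := p
  change p = Sum.inl q at h
  subst h
  show (if Tws A B then sg T (bp B q) else bp B q) = _
  rw [if_pos hB]

theorem pos_inr (A : ℕ → ℕ → Prop) (B : Blk T) (p : Pt T) (k : ℕ) (h : p.1 = Sum.inr k) :
    pos A B p = k := by
  obtain ⟨p, hp⟩ := p
  change p = Sum.inr k at h
  subst h
  rfl

theorem bp_fst (B : Blk T) (q : Q) (h : q = B.1.1) : bp B q = (pl T B.1.1 B.1.2).1 := by
  unfold bp
  rw [if_pos h]

theorem bp_snd (B : Blk T) (q : Q) (h : q = B.1.2) : bp B q = (pl T B.1.1 B.1.2).2 := by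
  unfold bp
  have h1 := gen_ne B.2.2.2
  rw [if_neg (by rw [h]; exact fun h2 => h1 h2.symm), if_pos h]

/-- places of a tuple -/
theorem pos_tup (A : ℕ → ℕ → Prop) (B : Blk T) {k : ℕ} (t : Fin k → Option Bool)
    (par : Fin k → Pt T) (a b : Pt T) :
    (fun j => pos A B (tup t par a b j)) =
      tup t (fun j => pos A B (par j)) (pos A B a) (pos A B b) := by
  funext j
  unfold tup
  cases t j with
  | none => rfl
  | some v => cases v <;> rfl

/-- members of a tuple -/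
theorem mem_tup (B : Blk T) {k : ℕ} (t : Fin k → Option Bool)
    (par : Fin k → Pt T) (a b : Pt T) (ha : Mem B a) (hb : Mem B b)
    (hp : ∀ j, t j = none → Mem B (par j)) (j : Fin k) : Mem B (tup t par a b j) := by
  unfold tup
  cases h : t j with
  | none => exact hp j h
  | some v =>
    cases v
    · exact ha
    · exact hb

/-! ### the blocks used -/

theorem gen_ge (i : ℕ) : Gen .g (.e i) := by
  refine ⟨Or.inl (by show 0 < 1; norm_num), ?_⟩
  rintro (⟨c, d, v, h, -⟩ | ⟨c, d, v, h, -⟩) <;> cases h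

theorem gen_gf (i : ℕ) : Gen .g (.f i) := by
  refine ⟨Or.inl (by show 0 < 2; norm_num), ?_⟩
  rintro (⟨c, d, v, h, -⟩ | ⟨c, d, v, h, -⟩) <;> cases h

theorem gen_ef (i j : ℕ) : Gen (.e i) (.f j) := by
  refine ⟨Or.inl (by show 1 < 2; norm_num), ?_⟩
  rintro (⟨c, d, v, h, -⟩ | ⟨c, d, v, h, -⟩) <;> cases h

theorem gen_ee {i j : ℕ} (hij : i < j) : Gen (.e i) (.e j) := by
  refine ⟨Or.inr ⟨rfl, ?_⟩, ?_⟩
  · show 3 * i + 1 < 3 * j + 1
    omega
  · rintro (⟨c, d, v, h, -⟩ | ⟨c, d, v, h, -⟩) <;> cases h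

theorem gen_ff {i j : ℕ} (hij : i < j) : Gen (.f i) (.f j) := by
  refine ⟨Or.inr ⟨rfl, ?_⟩, ?_⟩
  · show 3 * i + 2 < 3 * j + 2
    omega
  · rintro (⟨c, d, v, h, -⟩ | ⟨c, d, v, h, -⟩) <;> cases h

theorem gen_new (q a b : Q) (w : ℕ) (hr : rk q < 3) (h1 : q ≠ a) (h2 : q ≠ b) :
    Gen q (.new a b w) := by
  refine ⟨Or.inl hr, ?_⟩
  rintro (⟨c, d, v, h, -⟩ | ⟨c, d, v, h, h3⟩)
  · rw [h] at hr
    exact absurd hr (by show ¬ (3 < 3); omega)
  · injection h with ha hb hv
    subst ha hb hv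
    rcases h3 with h3 | h3 | ⟨w', h3⟩
    · exact h1 h3
    · exact h2 h3
    · rw [h3] at hr
      exact absurd hr (by show ¬ (3 < 3); omega)

/-- a block is not twisted if it is not generated by some `e i`, `f j` -/
theorem not_tws (A : ℕ → ℕ → Prop) (B : Blk T) (h : ∀ i j, B.1 ≠ (.e i, .f j)) : ¬ Tws A B := by
  rintro ⟨i, j, h1, -⟩
  exact h i j h1

/-- the places of the generating points, in a block which is not twisted -/
theorem pos_mkB (A : ℕ → ℕ → Prop) (a b : Q) (ha : Val T a) (hb : Val T b) (h : Gen a b)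
    (hn : ∀ i j, (a, b) ≠ (Q.e i, Q.f j)) (p q : Pt T) (hp : p.1 = Sum.inl a)
    (hq : q.1 = Sum.inl b) : pos A (mkB a b ha hb h) p = (T.ρ (mm T a) (mm T b)).1 ∧
      pos A (mkB a b ha hb h) q = (T.ρ (mm T a) (mm T b)).2 := by
  have h1 : pl T a b = T.ρ (mm T a) (mm T b) := by
    unfold pl
    split
    · rename_i i j
      exact absurd rfl (hn i j)
    · rfl
  have h2 : ¬ Tws A (mkB a b ha hb h) := not_tws A _ hn
  rw [pos_inl A _ p a hp h2, pos_inl A _ q b hq h2, bp_fst _ a rfl, bp_snd _ b rfl]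
  constructor
  · show (pl T a b).1 = _
    rw [h1]
  · show (pl T a b).2 = _
    rw [h1]

end

end Pool.Agent.H65.TU
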