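import Pool.Agent.H65.TU.Base

/-!
The second coding case.
-/

set_option autoImplicit false

open Set

namespace Pool.Agent.H65.TU

open Pool.Agent.H85.TU

section

variable {ι : Type} {ar : ι → ℕ} {D : ι → Type} {x : Str ar D ℕ} {T : Dat x}

theorem mem_init (B : Blk T) (p : Pt T) (q : Q) (hp : p.1 = Sum.inl q) (hq : rk q < 3)
    (h : Mem B p) : q = B.1.1 ∨ q = B.1.2 := by
  rcases h q hp with h1 | h1 | ⟨v, h1⟩
  · exact Or.inl h1
  · exact Or.inr h1
  · rw [h1] at hq
    exact absurd hq (by show ¬ (3 < 3); omega)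

theorem mem_g (B : Blk T) (h : Mem B (gP T)) : B.1.1 = .g := by
  rcases mem_init B (gP T) .g rfl (by show 0 < 3; norm_num) h with h1 | h1
  · exact h1.symm
  · exfalso
    have h2 := B.2.2.2.1
    rw [← h1] at h2
    rcases h2 with h3 | h3
    · exact absurd h3 (Nat.not_lt_zero _)
    · exact absurd h3.2 (Nat.not_lt_zero _)

/-- the second generating point of a block which contains `g` -/
theorem mem_snd_g (B : Blk T) (hg : Mem B (gP T)) (p : Pt T) (q : Q) (hp : p.1 = Sum.inl q)
    (hq : rk q < 3) (hqg : q ≠ .g) (h : Mem B p) : B.1.2 = q := by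
  rcases mem_init B p q hp hq h with h1 | h1
  · rw [mem_g B hg] at h1
    exact absurd h1 hqg
  · exact h1.symm

theorem eP_inj {a b : ℕ} (h : eP T a = eP T b) : a = b :=
  Q.e.inj (Sum.inl.inj (congrArg Subtype.val h))

theorem fP_inj {a b : ℕ} (h : fP T a = fP T b) : a = b :=
  Q.f.inj (Sum.inl.inj (congrArg Subtype.val h))

end

theorem pf_CD1 (hLNU : T_LNU) (hWDF : T_WDF) : T_CD1 := by
  classical
  intro ι ar D x T A i c0 c1 har hc01
  set S : Pt T → Pt T → Prop :=
    RR (Gst T A (fr1 T i c0 c1 A)) i (pt1 (ar i)) (fun _ => gP T) c1 with hS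
  have hV0 : ∀ a b : Pt T, tup (pt1 (ar i)) (fun _ => gP T) a b ⟨0, by omega⟩ = a := by
    intro a b
    simp [tup, pt1]
  have hV1 : ∀ a b : Pt T, tup (pt1 (ar i)) (fun _ => gP T) a b ⟨1, by omega⟩ = b := by
    intro a b
    simp [tup, pt1]
  have hV2 : ∀ a b : Pt T, tup (pt1 (ar i)) (fun _ => gP T) a b ⟨2, by omega⟩ = gP T := by
    intro a b
    simp [tup, pt1]
  -- no block
  have hno : ∀ a b : Pt T, (¬ ∃ B : Blk T, Mem B a ∧ Mem B b ∧ Mem B (gP T)) →
      (S a b ↔ ∃ a' b', A a' b' ∧ a = eP T a' ∧ b = fP T b') := by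
    intro a b hB
    have h1 : ¬ ∃ B : Blk T, ∀ k, Mem B (tup (pt1 (ar i)) (fun _ => gP T) a b k) := by
      rintro ⟨B, h⟩
      refine hB ⟨B, ?_, ?_, ?_⟩
      · have := h ⟨0, by omega⟩
        rwa [hV0] at this
      · have := h ⟨1, by omega⟩
        rwa [hV1] at this
      · have := h ⟨2, by omega⟩
        rwa [hV2] at this
    rw [hS]
    unfold RR Gst
    rw [dif_neg h1]
    unfold fr1
    rw [Function.update_self]
    have h2 : (∃ a' b', A a' b' ∧ tup (pt1 (ar i)) (fun _ => gP T) a b =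
        tup (pt1 (ar i)) (fun _ => gP T) (eP T a') (fP T b')) ↔
        ∃ a' b', A a' b' ∧ a = eP T a' ∧ b = fP T b' := by
      constructor
      · rintro ⟨a', b', h3, h4⟩
        refine ⟨a', b', h3, ?_, ?_⟩
        · have := congrFun h4 ⟨0, by omega⟩
          rwa [hV0, hV0] at this
        · have := congrFun h4 ⟨1, by omega⟩
          rwa [hV1, hV1] at this
      · rintro ⟨a', b', h3, rfl, rfl⟩
        exact ⟨a', b', h3, rfl⟩
    rw [← h2]
    by_cases h3 : ∃ a' b', A a' b' ∧ tup (pt1 (ar i)) (fun _ => gP T) a b =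
        tup (pt1 (ar i)) (fun _ => gP T) (eP T a') (fP T b')
    · rw [if_pos h3]
      exact ⟨fun _ => h3, fun _ => rfl⟩
    · rw [if_neg h3]
      exact ⟨fun h => absurd h hc01, fun h => absurd h h3⟩
  -- in a block
  have hyes : ∀ (B : Blk T) (a b : Pt T) (k l m : ℕ), Mem B a → Mem B b → Mem B (gP T) →
      pos A B a = k → pos A B b = l → pos A B (gP T) = m →
      (S a b ↔ x i (tup (pt1 (ar i)) (fun _ => m) k l) = c1) := by
    intro B a b k l m ha hb hg hk hl hm
    have h1 := hWDF ι ar D x T A (fr1 T i c0 c1 A) i (tup (pt1 (ar i)) (fun _ => gP T) a b) B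
      (mem_tup B _ _ a b ha hb fun _ _ => hg)
    rw [hS]
    unfold RR
    rw [h1, pos_tup, hk, hl, hm]
  refine ⟨?_, ?_, ?_⟩
  · intro a b
    rw [hno]
    · constructor
      · rintro ⟨a', b', h1, h2, h3⟩
        rw [eP_inj h2, fP_inj h3]
        exact h1
      · intro h
        exact ⟨a, b, h, rfl, rfl⟩
    · rintro ⟨B, h1, h2, h3⟩
      have h4 := mem_snd_g B h3 (eP T a) (.e a) rfl (by show 1 < 3; norm_num)
        (fun h => by cases h) h1
      have h5 := mem_snd_g B h3 (fP T b) (.f b) rfl (by show 2 < 3; norm_num)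
        (fun h => by cases h) h2
      rw [h4] at h5
      cases h5
  · rintro ⟨c, hc⟩ hcf hce ⟨h0, h1, -, h3, -, -⟩
    -- true labels are in blocks
    have hblk : ∀ j, S (eP T j) ⟨c, hc⟩ →
        ∃ B : Blk T, Mem B (eP T j) ∧ Mem B ⟨c, hc⟩ ∧ Mem B (gP T) := by
      intro j hj
      by_contra hB
      obtain ⟨a', b', -, -, h⟩ := (hno _ _ hB).1 hj
      exact hcf b' h
    rcases c with q | k
    · rcases q with _ | m | m | ⟨a, b, w⟩
      · -- g
        have h5 : ∀ j, S (eP T j) ⟨.inl .g, hc⟩ ↔ x i (tup (pt1 (ar i))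
            (fun _ => (T.ρ T.z T.z).1) (T.ρ T.z T.z).2 (T.ρ T.z T.z).1) = c1 := by
          intro j
          have h6 := pos_mkB (T := T) A .g (.e j) trivial trivial (gen_ge j) (fun _ _ h => by
            injection h with h _
            cases h) ⟨.inl .g, hc⟩ (eP T j) rfl rfl
          exact hyes (mkB .g (.e j) trivial trivial (gen_ge j)) _ _ _ _ _ (mem_snd _ _ rfl)
            (mem_fst _ _ rfl) (mem_fst _ _ rfl) h6.2 h6.1 h6.1
        exact h3 ((h5 3).2 ((h5 0).1 h0))
      · -- e m
        obtain ⟨B, h4, h5, h6⟩ := hblk 0 h0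
        have h7 := mem_snd_g B h6 (eP T 0) (.e 0) rfl (by show 1 < 3; norm_num)
          (fun h => by cases h) h4
        have h8 := mem_snd_g B h6 _ (.e m) rfl (by show 1 < 3; norm_num)
          (fun h => by cases h) h5
        rw [h7] at h8
        injection h8 with h8
        subst h8
        exact hce 0 (by norm_num) rfl
      · exact hcf m rfl
      · -- new
        obtain ⟨B, h4, h5, h6⟩ := hblk 0 h0
        obtain ⟨B', h4', h5', h6'⟩ := hblk 1 h1
        have h7 := mem_snd_g B h6 (eP T 0) (.e 0) rfl (by show 1 < 3; norm_num)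
          (fun h => by cases h) h4
        have h8 := mem_snd_g B' h6' (eP T 1) (.e 1) rfl (by show 1 < 3; norm_num)
          (fun h => by cases h) h4'
        have h9 : B = B' := hLNU ι ar D x T B B' ⟨.inl (.new a b w), hc⟩ (gP T) (.new a b w) .g
          rfl rfl (fun h => by cases h) h5 h6 h5' h6'
        rw [← h9, h7] at h8
        injection h8 with h8
        exact absurd h8 (by norm_num)
    · -- a fixed point
      have h5 : ∀ j, S (eP T j) ⟨.inr k, hc⟩ ↔ x i (tup (pt1 (ar i))
          (fun _ => (T.ρ T.z T.z).1) (T.ρ T.z T.z).2 k) = c1 := by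
        intro j
        have h6 := pos_mkB (T := T) A .g (.e j) trivial trivial (gen_ge j) (fun _ _ h => by
          injection h with h _
          cases h) (gP T) (eP T j) rfl rfl
        exact hyes (mkB .g (.e j) trivial trivial (gen_ge j)) _ _ _ _ _ (mem_snd _ _ rfl)
          (mem_inr _ _ k rfl) (mem_fst _ _ rfl) h6.2 (pos_inr A _ _ k rfl) h6.1
      exact h3 ((h5 3).2 ((h5 0).1 h0))
  · rintro ⟨c, hc⟩ hce hcf ⟨h0, h1, -, h3, -, -⟩
    have hblk : ∀ j, S ⟨c, hc⟩ (fP T j) →
        ∃ B : Blk T, Mem B ⟨c, hc⟩ ∧ Mem B (fP T j) ∧ Mem B (gP T) := by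
      intro j hj
      by_contra hB
      obtain ⟨a', b', -, h, -⟩ := (hno _ _ hB).1 hj
      exact hce a' h
    rcases c with q | k
    · rcases q with _ | m | m | ⟨a, b, w⟩
      · -- g
        have h5 : ∀ j, S ⟨.inl .g, hc⟩ (fP T j) ↔ x i (tup (pt1 (ar i))
            (fun _ => (T.ρ T.z T.u).1) (T.ρ T.z T.u).1 (T.ρ T.z T.u).2) = c1 := by
          intro j
          have h6 := pos_mkB (T := T) A .g (.f j) trivial trivial (gen_gf j) (fun _ _ h => by
            injection h with h _
            cases h) ⟨.inl .g, hc⟩ (fP T j) rfl rfl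
          exact hyes (mkB .g (.f j) trivial trivial (gen_gf j)) _ _ _ _ _ (mem_fst _ _ rfl)
            (mem_snd _ _ rfl) (mem_fst _ _ rfl) h6.1 h6.2 h6.1
        exact h3 ((h5 3).2 ((h5 0).1 h0))
      · exact hce m rfl
      · -- f m
        obtain ⟨B, h4, h5, h6⟩ := hblk 0 h0
        have h7 := mem_snd_g B h6 (fP T 0) (.f 0) rfl (by show 2 < 3; norm_num)
          (fun h => by cases h) h5
        have h8 := mem_snd_g B h6 _ (.f m) rfl (by show 2 < 3; norm_num)
          (fun h => by cases h) h4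
        rw [h7] at h8
        injection h8 with h8
        subst h8
        exact hcf 0 (by norm_num) rfl
      · -- new
        obtain ⟨B, h5, h4, h6⟩ := hblk 0 h0
        obtain ⟨B', h5', h4', h6'⟩ := hblk 1 h1
        have h7 := mem_snd_g B h6 (fP T 0) (.f 0) rfl (by show 2 < 3; norm_num)
          (fun h => by cases h) h4
        have h8 := mem_snd_g B' h6' (fP T 1) (.f 1) rfl (by show 2 < 3; norm_num)
          (fun h => by cases h) h4'
        have h9 : B = B' := hLNU ι ar D x T B B' ⟨.inl (.new a b w), hc⟩ (gP T) (.new a b w) .g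
          rfl rfl (fun h => by cases h) h5 h6 h5' h6'
        rw [← h9, h7] at h8
        injection h8 with h8
        exact absurd h8 (by norm_num)
    · -- a fixed point
      have h5 : ∀ j, S ⟨.inr k, hc⟩ (fP T j) ↔ x i (tup (pt1 (ar i))
          (fun _ => (T.ρ T.z T.u).1) k (T.ρ T.z T.u).2) = c1 := by
        intro j
        have h6 := pos_mkB (T := T) A .g (.f j) trivial trivial (gen_gf j) (fun _ _ h => by
          injection h with h _
          cases h) (gP T) (fP T j) rfl rfl
        exact hyes (mkB .g (.f j) trivial trivial (gen_gf j)) _ _ _ _ _ (mem_inr _ _ k rfl)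
          (mem_snd _ _ rfl) (mem_fst _ _ rfl) (pos_inr A _ _ k rfl) h6.2 h6.1
      exact h3 ((h5 3).2 ((h5 0).1 h0))

end Pool.Agent.H65.TU
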