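import Pool.Agent.H65.TU.Base

/-!
The first coding case.
-/

set_option autoImplicit false

open Set

namespace Pool.Agent.H65.TU

open Pool.Agent.H85.TU

/-- among three distinct points one is not in a pair -/
theorem three_two {P : Type} {a b p q r : P} (hpq : p ≠ q) (hpr : p ≠ r) (hqr : q ≠ r) :
    (p ≠ a ∧ p ≠ b) ∨ (q ≠ a ∧ q ≠ b) ∨ (r ≠ a ∧ r ≠ b) := by
  by_cases h1 : p = a
  · subst h1
    by_cases h2 : q = b
    · subst h2
      exact Or.inr (Or.inr ⟨hpr.symm, hqr.symm⟩)
    · exact Or.inr (Or.inl ⟨hpq.symm, h2⟩)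
  · by_cases h2 : p = b
    · subst h2
      by_cases h3 : q = a
      · subst h3
        exact Or.inr (Or.inr ⟨hqr.symm, hpr.symm⟩)
      · exact Or.inr (Or.inl ⟨h3, hpq.symm⟩)
    · exact Or.inl ⟨h1, h2⟩

/-- a predicate which is constant outside of a pair does not have the pattern -/
theorem pattern {P : Type} {K : Prop} {a b : P} {u : ℕ → P} (hu : Function.Injective u)
    {R : ℕ → Prop} (h : ∀ i, i < 6 → u i ≠ a → u i ≠ b → (R i ↔ K)) :
    ¬ (R 0 ∧ R 1 ∧ R 2 ∧ ¬ R 3 ∧ ¬ R 4 ∧ ¬ R 5) := by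
  rintro ⟨h0, h1, h2, h3, h4, h5⟩
  have hne : ∀ i j : ℕ, i ≠ j → u i ≠ u j := fun i j hij h => hij (hu h)
  have hK : K := by
    rcases three_two (a := a) (b := b) (hne 0 1 (by norm_num)) (hne 0 2 (by norm_num))
      (hne 1 2 (by norm_num)) with ⟨h6, h7⟩ | ⟨h6, h7⟩ | ⟨h6, h7⟩
    · exact (h 0 (by norm_num) h6 h7).1 h0
    · exact (h 1 (by norm_num) h6 h7).1 h1
    · exact (h 2 (by norm_num) h6 h7).1 h2
  rcases three_two (a := a) (b := b) (hne 3 4 (by norm_num)) (hne 3 5 (by norm_num))
    (hne 4 5 (by norm_num)) with ⟨h6, h7⟩ | ⟨h6, h7⟩ | ⟨h6, h7⟩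
  · exact h3 ((h 3 (by norm_num) h6 h7).2 hK)
  · exact h4 ((h 4 (by norm_num) h6 h7).2 hK)
  · exact h5 ((h 5 (by norm_num) h6 h7).2 hK)

theorem eQ_inj : Function.Injective (Q.e : ℕ → Q) := fun _ _ h => Q.e.inj h

theorem fQ_inj : Function.Injective (Q.f : ℕ → Q) := fun _ _ h => Q.f.inj h

theorem sg_z {ι : Type} {ar : ι → ℕ} {D : ι → Type} {x : Str ar D ℕ} (T : Dat x) :
    sg T T.z = T.z' := by
  have h1 : T.z' ≠ Equiv.swap T.z T.z' T.u := by
    intro h
    have h2 : Equiv.swap T.z T.z' T.z = Equiv.swap T.z T.z' T.u := by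
      rw [Equiv.swap_apply_left]
      exact h
    exact T.zu ((Equiv.swap T.z T.z').injective h2)
  show Equiv.swap (Equiv.swap T.z T.z' T.u) T.u' (Equiv.swap T.z T.z' T.z) = T.z'
  rw [Equiv.swap_apply_left]
  exact Equiv.swap_apply_of_ne_of_ne h1 T.zu'

theorem sg_u {ι : Type} {ar : ι → ℕ} {D : ι → Type} {x : Str ar D ℕ} (T : Dat x) :
    sg T T.u = T.u' := by
  show Equiv.swap (Equiv.swap T.z T.z' T.u) T.u' (Equiv.swap T.z T.z' T.u) = T.u'
  exact Equiv.swap_apply_left _ _

theorem pf_CD2 (hWDF : T_WDF) : T_CD2 := by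
  intro ι ar D x T A fr i t n hn hne
  -- the label of a pair in a block
  have hstar : ∀ (B : Blk T) (a b : Pt T), Mem B a → Mem B b →
      (RR (Gst T A fr) i t (parK T n) (x i (tup t n T.z' T.u')) a b ↔
        x i (tup t n (pos A B a) (pos A B b)) = x i (tup t n T.z' T.u')) := by
    intro B a b ha hb
    have hpk : ∀ j, t j = none → (parK T n j).1 = Sum.inr (n j) := by
      intro j hj
      unfold parK
      rw [dif_pos (hn j hj)]
      rfl
    have h1 := hWDF ι ar D x T A fr i (tup t (parK T n) a b) B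
      (mem_tup B t _ a b ha hb fun j hj => mem_inr B _ _ (hpk j hj))
    unfold RR
    rw [h1, pos_tup]
    have h2 : tup t (fun j => pos A B (parK T n j)) (pos A B a) (pos A B b) =
        tup t n (pos A B a) (pos A B b) := by
      funext j
      unfold tup
      cases h : t j with
      | none => exact pos_inr A B _ _ (hpk j h)
      | some v => cases v <;> rfl
    rw [h2]
  -- the same with given places
  have hstar2 : ∀ (B : Blk T) (a b : Pt T) (k l : ℕ), Mem B a → Mem B b → pos A B a = k →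
      pos A B b = l → (RR (Gst T A fr) i t (parK T n) (x i (tup t n T.z' T.u')) a b ↔
        x i (tup t n k l) = x i (tup t n T.z' T.u')) := by
    intro B a b k l ha hb hk hl
    rw [hstar B a b ha hb, hk, hl]
  set S : Pt T → Pt T → Prop := RR (Gst T A fr) i t (parK T n) (x i (tup t n T.z' T.u')) with hS
  refine ⟨?_, ?_, ?_⟩
  · intro a b
    set B : Blk T := mkB (.e a) (.f b) trivial trivial (gen_ef a b) with hB
    have hb1 : bp B (.e a) = T.z := bp_fst B (.e a) rfl
    have hb2 : bp B (.f b) = T.u := bp_snd B (.f b) rfl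
    rw [hstar B _ _ (mem_fst B _ rfl) (mem_snd B _ rfl)]
    by_cases hA : A a b
    · have hT : Tws A B := ⟨a, b, rfl, hA⟩
      rw [pos_inl_tws A B (eP T a) (.e a) rfl hT, pos_inl_tws A B (fP T b) (.f b) rfl hT, hb1, hb2,
        sg_z, sg_u]
      exact ⟨fun _ => hA, fun _ => rfl⟩
    · have hT : ¬ Tws A B := by
        rintro ⟨a', b', h1, h2⟩
        injection h1 with h3 h4
        injection h3 with h3
        injection h4 with h4
        subst h3 h4
        exact hA h2
      rw [pos_inl A B (eP T a) (.e a) rfl hT, pos_inl A B (fP T b) (.f b) rfl hT, hb1, hb2]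
      exact ⟨fun h => absurd h hne, fun h => absurd h hA⟩
  · rintro ⟨c, hc⟩ hcf hce
    rcases c with q | k
    · rcases q with _ | m | m | ⟨a, b, w⟩
      · -- g
        refine pattern (K := x i (tup t n (T.ρ T.z T.z).2 (T.ρ T.z T.z).1) =
          x i (tup t n T.z' T.u')) (a := Q.g) (b := Q.g) (R := fun j => S (eP T j) ⟨_, hc⟩) eQ_inj fun j hj _ _ => ?_
        have h1 := pos_mkB (T := T) A .g (.e j) trivial trivial (gen_ge j) (fun _ _ h => by
          injection h with h _
          cases h) ⟨.inl .g, hc⟩ (eP T j) rfl rfl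
        exact hstar2 (mkB .g (.e j) trivial trivial (gen_ge j)) _ _ _ _ (mem_snd _ _ rfl)
          (mem_fst _ _ rfl) h1.2 h1.1
      · -- e m
        have hm : 8 ≤ m := by
          by_contra hm
          exact hce m (not_le.1 hm) rfl
        refine pattern (K := x i (tup t n (T.ρ T.z T.z).1 (T.ρ T.z T.z).2) =
          x i (tup t n T.z' T.u')) (a := Q.g) (b := Q.g) (R := fun j => S (eP T j) ⟨_, hc⟩) eQ_inj fun j hj _ _ => ?_
        have hg : Gen (.e j) (.e m) := gen_ee (by omega)
        have h1 := pos_mkB (T := T) A (.e j) (.e m) trivial trivial hg (fun _ _ h => by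
          injection h with _ h
          cases h) (eP T j) ⟨.inl (.e m), hc⟩ rfl rfl
        exact hstar2 (mkB (.e j) (.e m) trivial trivial hg) _ _ _ _ (mem_fst _ _ rfl)
          (mem_snd _ _ rfl) h1.1 h1.2
      · exact absurd rfl (hcf m)
      · -- new
        refine pattern (K := x i (tup t n (T.ρ T.z w).1 (T.ρ T.z w).2) =
          x i (tup t n T.z' T.u')) (a := a) (b := b) (R := fun j => S (eP T j) ⟨_, hc⟩) eQ_inj fun j hj h1 h2 => ?_
        have hg : Gen (.e j) (.new a b w) := gen_new _ _ _ _ (by show 1 < 3; norm_num) h1 h2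
        have h1 := pos_mkB (T := T) A (.e j) (.new a b w) trivial hc hg (fun _ _ h => by
          injection h with _ h
          cases h) (eP T j) ⟨.inl (.new a b w), hc⟩ rfl rfl
        exact hstar2 (mkB (.e j) (.new a b w) trivial hc hg) _ _ _ _ (mem_fst _ _ rfl)
          (mem_snd _ _ rfl) h1.1 h1.2
    · -- a fixed point
      refine pattern (K := x i (tup t n (T.ρ T.z T.z).2 k) =
          x i (tup t n T.z' T.u')) (a := Q.g) (b := Q.g) (R := fun j => S (eP T j) ⟨_, hc⟩) eQ_inj fun j hj _ _ => ?_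
      have h1 := pos_mkB (T := T) A .g (.e j) trivial trivial (gen_ge j) (fun _ _ h => by
        injection h with h _
        cases h) (gP T) (eP T j) rfl rfl
      exact hstar2 (mkB .g (.e j) trivial trivial (gen_ge j)) _ _ _ _ (mem_snd _ _ rfl)
        (mem_inr _ _ k rfl) h1.2 (pos_inr A _ _ k rfl)
  · rintro ⟨c, hc⟩ hce hcf
    rcases c with q | k
    · rcases q with _ | m | m | ⟨a, b, w⟩
      · -- g
        refine pattern (K := x i (tup t n (T.ρ T.z T.u).1 (T.ρ T.z T.u).2) =
          x i (tup t n T.z' T.u')) (a := Q.g) (b := Q.g) (R := fun j => S ⟨_, hc⟩ (fP T j)) fQ_inj fun j hj _ _ => ?_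
        have h1 := pos_mkB (T := T) A .g (.f j) trivial trivial (gen_gf j) (fun _ _ h => by
          injection h with h _
          cases h) ⟨.inl .g, hc⟩ (fP T j) rfl rfl
        exact hstar2 (mkB .g (.f j) trivial trivial (gen_gf j)) _ _ _ _ (mem_fst _ _ rfl)
          (mem_snd _ _ rfl) h1.1 h1.2
      · exact absurd rfl (hce m)
      · -- f m
        have hm : 8 ≤ m := by
          by_contra hm
          exact hcf m (not_le.1 hm) rfl
        refine pattern (K := x i (tup t n (T.ρ T.u T.u).2 (T.ρ T.u T.u).1) =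
          x i (tup t n T.z' T.u')) (a := Q.g) (b := Q.g) (R := fun j => S ⟨_, hc⟩ (fP T j)) fQ_inj fun j hj _ _ => ?_
        have hg : Gen (.f j) (.f m) := gen_ff (by omega)
        have h1 := pos_mkB (T := T) A (.f j) (.f m) trivial trivial hg (fun _ _ h => by
          injection h with h _
          cases h) (fP T j) ⟨.inl (.f m), hc⟩ rfl rfl
        exact hstar2 (mkB (.f j) (.f m) trivial trivial hg) _ _ _ _ (mem_snd _ _ rfl)
          (mem_fst _ _ rfl) h1.2 h1.1
      · -- new
        refine pattern (K := x i (tup t n (T.ρ T.u w).2 (T.ρ T.u w).1) =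
          x i (tup t n T.z' T.u')) (a := a) (b := b) (R := fun j => S ⟨_, hc⟩ (fP T j)) fQ_inj fun j hj h1 h2 => ?_
        have hg : Gen (.f j) (.new a b w) := gen_new _ _ _ _ (by show 2 < 3; norm_num) h1 h2
        have h1 := pos_mkB (T := T) A (.f j) (.new a b w) trivial hc hg (fun _ _ h => by
          injection h with h _
          cases h) (fP T j) ⟨.inl (.new a b w), hc⟩ rfl rfl
        exact hstar2 (mkB (.f j) (.new a b w) trivial hc hg) _ _ _ _ (mem_snd _ _ rfl)
          (mem_fst _ _ rfl) h1.2 h1.1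
    · -- a fixed point
      refine pattern (K := x i (tup t n k (T.ρ T.z T.u).2) =
          x i (tup t n T.z' T.u')) (a := Q.g) (b := Q.g) (R := fun j => S ⟨_, hc⟩ (fP T j)) fQ_inj fun j hj _ _ => ?_
      have h1 := pos_mkB (T := T) A .g (.f j) trivial trivial (gen_gf j) (fun _ _ h => by
        injection h with h _
        cases h) (gP T) (fP T j) rfl rfl
      exact hstar2 (mkB .g (.f j) trivial trivial (gen_gf j)) _ _ _ _ (mem_inr _ _ k rfl)
        (mem_snd _ _ rfl) (pos_inr A _ _ k rfl) h1.2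

end Pool.Agent.H65.TU
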