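import Pool.Agent.H85.TU.Targets2

/-!
The other prefixes are universal.
-/

set_option autoImplicit false

open Set

namespace Pool.Agent.H65.TU

open Pool.Agent.H85.TU

theorem pf_HPX (hCOR : T_COR) (hBLO : T_BLO) (hP12 : T_P12) (hP3 : T_P3) (hMSM : T_MSM)
    (hDUM : T_DUM) (hWRD : T_WRD) : T_HPX := by
  intro π h1 h2 h3 h4 ι _ ar D _ _ _ X hX hinv
  obtain ⟨C₀, mC, sC, α, β, len, hα, hβ, hlen, hHL, hC1, hP1⟩ := hCOR ι ar D X hX hinv
  obtain ⟨hB1, hB2⟩ := hBLO C₀ α β len hHL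
  obtain ⟨hM1, hM2, hM3⟩ := hMSM C₀ α β len hα hβ hlen
  have key : ∀ (π' : List Bool) (B' : Set (TY bar (bD (LC C₀)) π'.length)), π'.Sublist π →
      MeasurableSet B' → Sent π' B' = S1 α β len →
      ∃ (C : Type) (_ : MeasurableSpace C) (_ : StandardBorelSpace C)
        (B : Set (TY bar (bD C) π.length)), MeasurableSet B ∧
        (CountablyMany (Sent π B) ↔ CountablyMany X) ∧
        (PerfectlyMany (Sent π B) ↔ PerfectlyMany X) := by
    intro π' B' hs hB' hS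
    obtain ⟨B, hB, hSB⟩ := hDUM Unit bar (bD (LC C₀)) π' π hs B' hB'
    refine ⟨LC C₀, inferInstance, inferInstance, B, hB, ?_, ?_⟩
    · rw [hSB, hS]
      exact hB1.trans hC1
    · rw [hSB, hS]
      exact hB2.trans hP1
  rcases hWRD π h1 h2 h3 h4 with h | h | h
  · exact key _ _ h hM1 (hP12 C₀ α β len).1
  · exact key _ _ h hM2 (hP12 C₀ α β len).2
  · exact key _ _ h hM3 (hP3 C₀ α β len)

end Pool.Agent.H65.TU
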